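import Pool.Agent.W763.PB.Stm

/-! Project PB: range I. -/

set_option autoImplicit false
set_option linter.unusedSectionVars false
open MeasureTheory Filter Topology
open scoped InnerProductSpace BoundedContinuousFunction

namespace Pool.Agent.W303.PB

open Pool.Agent.W763.PB

theorem g1 : S_R2 → S_Z4 → S_Z5 → S_J1 → S_J4 → S_G1 := by
  intro _ hZ4 hZ5 hJ1 hJ4 k b m _ _ hk hb H _ _ _ U D hL n hmn hn F
  obtain ⟨-, hadj, -, -, -⟩ := hJ1 k b m hk hb H U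
  obtain ⟨-, -, hup, -, hsplit, hG⟩ := hJ4 k b m hk hb H U D hL
  obtain ⟨-, -, hkh, -⟩ := hZ5 k b m hk hb
  have hk1 := (hkh n).1
  set φ := ContinuousLinearMap.adjoint (Jop k b m U) F with hφ
  set G := F - Jop k b m U φ with hG'
  have hG0 : ContinuousLinearMap.adjoint (Jop k b m U) G = 0 := by
    rw [hG', map_sub, hadj, ← hφ, sub_self]
  have h1 := hsplit F
  rw [← hφ, ← hG'] at h1
  have h2 := hG n G hG0
  have h3 : ‖Dop k b m U D ((Ush b m ^ n) (Jop k b m U φ))‖ ^ 2 ≤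
      2 * kh k b m n * ‖D φ‖ ^ 2 := by
    refine (hup _).trans ?_
    have h4 : ∀ t : ZMod (b * m), ww k b m t * ‖((Ush b m ^ n) (Jop k b m U φ)) t‖ ^ 2 =
        ww k b m t * (Om k b m (t + n)) ^ 2 * ‖φ‖ ^ 2 := by
      intro t
      rw [Ush_pow_apply, Jop_apply, norm_smul, Complex.norm_real, LinearIsometryEquiv.norm_map,
        mul_pow, Real.norm_eq_abs, sq_abs, mul_assoc]
    rw [Finset.sum_congr rfl fun t _ => h4 t, ← Finset.sum_mul]
    have h5 := hZ4 k b m hk hb n hmn hn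
    have h6 := hL.lo φ
    have h7 : ‖φ‖ ^ 2 ≤ ‖D φ‖ ^ 2 := pow_le_pow_left₀ (norm_nonneg _) h6 2
    have h8 : 0 ≤ ‖φ‖ ^ 2 := sq_nonneg _
    calc (∑ t : ZMod (b * m), ww k b m t * (Om k b m (t + n)) ^ 2) * ‖φ‖ ^ 2
        ≤ (1 + kh k b m n) * ‖φ‖ ^ 2 := mul_le_mul_of_nonneg_right h5 h8
      _ ≤ 2 * kh k b m n * ‖φ‖ ^ 2 := mul_le_mul_of_nonneg_right (by linarith) h8
      _ ≤ 2 * kh k b m n * ‖D φ‖ ^ 2 := mul_le_mul_of_nonneg_left h7 (by linarith)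
  have h9 : Dop k b m U D ((Ush b m ^ n) F) = Dop k b m U D ((Ush b m ^ n) (Jop k b m U φ)) +
      Dop k b m U D ((Ush b m ^ n) G) := by
    rw [← map_add, ← map_add, hG', add_sub_cancel]
  rw [h9, h1]
  have h10 := norm_add_le (Dop k b m U D ((Ush b m ^ n) (Jop k b m U φ)))
    (Dop k b m U D ((Ush b m ^ n) G))
  set x := ‖Dop k b m U D ((Ush b m ^ n) (Jop k b m U φ))‖
  set y := ‖Dop k b m U D ((Ush b m ^ n) G)‖
  have h11 := pow_le_pow_left₀ (norm_nonneg _) h10 2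
  have h12 : (x + y) ^ 2 ≤ 3 / 2 * x ^ 2 + 3 * y ^ 2 := by nlinarith [sq_nonneg (x - 2 * y)]
  nlinarith

end Pool.Agent.W303.PB
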